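import Mathlib

set_option autoImplicit false

namespace Pool.Agent.Helper495.Res

open Set

universe u v

variable {G : Type u} {I : Type v} [Group G] [LinearOrder I] [WellFoundedLT I] (idx : G → I)

/-- Subgroup generated by the elements of index `< r`. -/
def Gs (r : I) : Subgroup G := Subgroup.closure {x | idx x < r}

/-- Subgroup generated by the elements of index `≤ r`. -/
def Gc (r : I) : Subgroup G := Subgroup.closure {x | idx x ≤ r}

omit [WellFoundedLT I] in
theorem Gs_le_Gc (r : I) : Gs idx r ≤ Gc idx r :=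
  Subgroup.closure_mono (fun _ hx => le_of_lt hx)

omit [WellFoundedLT I] in
theorem Gc_le_Gs {r s : I} (h : r < s) : Gc idx r ≤ Gs idx s :=
  Subgroup.closure_mono (fun _ hx => lt_of_le_of_lt hx h)

omit [WellFoundedLT I] in
theorem Gs_mono {r s : I} (h : r ≤ s) : Gs idx r ≤ Gs idx s :=
  Subgroup.closure_mono (fun _ hx => lt_of_lt_of_le hx h)

omit [WellFoundedLT I] in
theorem Gc_mono {r s : I} (h : r ≤ s) : Gc idx r ≤ Gc idx s :=
  Subgroup.closure_mono (fun _ hx => le_trans hx h)

omit [WellFoundedLT I] in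
theorem mem_Gc (g : G) : g ∈ Gc idx (idx g) :=
  Subgroup.subset_closure (le_refl (idx g))

omit [WellFoundedLT I] in
theorem exists_of_mem_Gs {r : I} {g : G} (hg : g ∈ Gs idx r) :
    g = 1 ∨ ∃ r', r' < r ∧ g ∈ Gc idx r' := by
  induction hg using Subgroup.closure_induction with
  | mem x hx => exact Or.inr ⟨idx x, hx, mem_Gc idx x⟩
  | one => exact Or.inl rfl
  | mul x y _ _ h1 h2 =>
    rcases h1 with rfl | ⟨r1, hr1, hx⟩
    · rcases h2 with rfl | ⟨r2, hr2, hy⟩
      · left; simp
      · right; exact ⟨r2, hr2, by simpa using hy⟩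
    · rcases h2 with rfl | ⟨r2, hr2, hy⟩
      · right; exact ⟨r1, hr1, by simpa using hx⟩
      · right
        exact ⟨max r1 r2, max_lt hr1 hr2,
          mul_mem (Gc_mono idx (le_max_left _ _) hx) (Gc_mono idx (le_max_right _ _) hy)⟩
  | inv x _ h1 =>
    rcases h1 with rfl | ⟨r1, hr1, hx⟩
    · left; simp
    · right; exact ⟨r1, hr1, inv_mem hx⟩

/-- The rank of an element. -/
noncomputable def rho (g : G) : I :=
  (wellFounded_lt (α := I)).min {r | g ∈ Gc idx r} ⟨idx g, mem_Gc idx g⟩

theorem rho_mem (g : G) : g ∈ Gc idx (rho idx g) :=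
  (wellFounded_lt (α := I)).min_mem {r | g ∈ Gc idx r} ⟨idx g, mem_Gc idx g⟩

theorem rho_le {g : G} {r : I} (h : g ∈ Gc idx r) : rho idx g ≤ r :=
  not_lt.1 ((wellFounded_lt (α := I)).not_lt_min {r | g ∈ Gc idx r} h)

theorem rho_lt_iff {g : G} (h1 : g ≠ 1) {r : I} : rho idx g < r ↔ g ∈ Gs idx r := by
  constructor
  · intro h
    exact Gc_le_Gs idx h (rho_mem idx g)
  · intro h
    rcases exists_of_mem_Gs idx h with h | ⟨r', hr', hg⟩
    · exact absurd h h1
    · exact lt_of_le_of_lt (rho_le idx hg) hr'

theorem mem_Gs_of_lt {g : G} {r : I} (h : rho idx g < r) : g ∈ Gs idx r :=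
  Gc_le_Gs idx h (rho_mem idx g)

theorem not_mem_Gs_rho {g : G} (h1 : g ≠ 1) : g ∉ Gs idx (rho idx g) := by
  intro h
  exact lt_irrefl _ ((rho_lt_iff idx h1).2 h)

theorem rho_eq_of {g : G} {r : I} (h1 : g ∈ Gc idx r) (h2 : g ∉ Gs idx r) : rho idx g = r := by
  refine le_antisymm (rho_le idx h1) ?_
  by_contra h
  exact h2 (mem_Gs_of_lt idx (not_le.1 h))

theorem rho_inv (g : G) : rho idx g⁻¹ = rho idx g := by
  apply le_antisymm
  · exact rho_le idx (inv_mem (rho_mem idx g))
  · refine rho_le idx ?_
    have := inv_mem (rho_mem idx g⁻¹)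
    simpa using this

theorem mul_not_mem {x g : G} {r : I} (hx : x ∈ Gs idx r) (hg : g ∉ Gs idx r) :
    x * g ∉ Gs idx r := by
  intro h
  apply hg
  have := mul_mem (inv_mem hx) h
  simpa using this

theorem rho_mul {x g : G} (hx : x ∈ Gs idx (rho idx g)) (h1 : g ≠ 1) :
    rho idx (x * g) = rho idx g :=
  rho_eq_of idx (mul_mem (Gs_le_Gc idx _ hx) (rho_mem idx g))
    (mul_not_mem idx hx (not_mem_Gs_rho idx h1))

theorem mul_ne_one' {x g : G} (hx : x ∈ Gs idx (rho idx g)) (h1 : g ≠ 1) : x * g ≠ 1 := by
  intro h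
  apply mul_not_mem idx hx (not_mem_Gs_rho idx h1)
  rw [h]; exact one_mem _

open Classical in
/-- A choice function on sets. -/
noncomputable def repS (S : Set G) : G := if h : S.Nonempty then h.some else 1

/-- The coset of the element modulo the lower subgroup. -/
def cosetS (g : G) : Set G := {y | y * g⁻¹ ∈ Gs idx (rho idx g)}

/-- The representative of the coset. -/
noncomputable def rep (g : G) : G := repS (cosetS idx g)

theorem rep_mem (g : G) : rep idx g * g⁻¹ ∈ Gs idx (rho idx g) := by
  have hne : (cosetS idx g).Nonempty := ⟨g, by simp [cosetS, one_mem]⟩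
  have : rep idx g ∈ cosetS idx g := by
    unfold rep repS
    rw [dif_pos hne]
    exact hne.some_mem
  exact this

theorem cosetS_mul {x g : G} (hx : x ∈ Gs idx (rho idx g)) (h1 : g ≠ 1) :
    cosetS idx (x * g) = cosetS idx g := by
  ext y
  simp only [cosetS, Set.mem_ofPred_eq, rho_mul idx hx h1]
  constructor
  · intro h
    have := mul_mem h hx
    simpa [mul_assoc] using this
  · intro h
    have := mul_mem h (inv_mem hx)
    simpa [mul_assoc] using this

theorem rep_mul {x g : G} (hx : x ∈ Gs idx (rho idx g)) (h1 : g ≠ 1) :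
    rep idx (x * g) = rep idx g := by
  unfold rep
  rw [cosetS_mul idx hx h1]

/-- The head of an element. -/
noncomputable def head (g : G) : G := g * (rep idx g)⁻¹

theorem head_mem (g : G) : head idx g ∈ Gs idx (rho idx g) := by
  have := inv_mem (rep_mem idx g)
  simpa [head] using this

theorem head_mul {x g : G} (hx : x ∈ Gs idx (rho idx g)) (h1 : g ≠ 1) :
    head idx (x * g) = x * head idx g := by
  unfold head
  rw [rep_mul idx hx h1, mul_assoc]

theorem head_mul_rep (g : G) : head idx g * rep idx g = g := by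
  simp [head]

open Classical in
/-- The measure for the recursion. -/
noncomputable def lev (g : G) : WithBot I := if g = 1 then ⊥ else ((rho idx g : I) : WithBot I)

theorem lev_head {g : G} (h1 : g ≠ 1) : lev idx (head idx g) < lev idx g := by
  unfold lev
  rw [if_neg h1]
  split_ifs with h
  · exact WithBot.bot_lt_coe _
  · exact WithBot.coe_lt_coe.2 ((rho_lt_iff idx h).2 (head_mem idx g))

theorem headInd (P : G → Prop) (hone : P 1) (hstep : ∀ g, g ≠ 1 → P (head idx g) → P g) :
    ∀ g, P g := by
  have key : ∀ (l : WithBot I) (g : G), lev idx g = l → P g := by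
    intro l
    induction l using WellFoundedLT.induction with
    | ind l ih =>
      intro g hg
      by_cases h1 : g = 1
      · subst h1; exact hone
      · exact hstep g h1 (ih _ (hg ▸ lev_head idx h1) _ rfl)
  intro g
  exact key _ g rfl

open Classical in
/-- The finite set of ranks occurring in the canonical form. -/
noncomputable def E (g : G) : Finset I :=
  (WellFounded.fix (C := fun _ => Finset I)
    (InvImage.wf (lev idx) (wellFounded_lt (α := WithBot I)))
    (fun g F => if h : g = 1 then ∅ else insert (rho idx g) (F (head idx g) (lev_head idx h)))) g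

theorem E_one : E idx (1 : G) = ∅ := by
  unfold E
  rw [WellFounded.fix_eq]
  simp

open Classical in
theorem E_ne {g : G} (h : g ≠ 1) : E idx g = insert (rho idx g) (E idx (head idx g)) := by
  conv_lhs => unfold E
  rw [WellFounded.fix_eq]
  rw [dif_neg h]
  rfl

theorem rho_mem_E {g : G} (h : g ≠ 1) : rho idx g ∈ E idx g := by
  classical
  rw [E_ne idx h]
  exact Finset.mem_insert_self _ _

theorem E_lt : ∀ (g : G) (r : I), g ∈ Gs idx r → ∀ a ∈ E idx g, a < r := by
  classical
  intro g
  induction g using headInd idx with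
  | hone =>
    intro r _ a ha
    rw [E_one] at ha
    simp at ha
  | hstep g h1 ih =>
    intro r hg a ha
    rw [E_ne idx h1] at ha
    have hr := (rho_lt_iff idx h1).2 hg
    rcases Finset.mem_insert.1 ha with rfl | ha
    · exact hr
    · exact lt_trans (ih _ (head_mem idx g) a ha) hr

theorem E_head_lt {g : G} {a : I} (ha : a ∈ E idx (head idx g)) : a < rho idx g :=
  E_lt idx _ _ (head_mem idx g) a ha

/-- All ranks in the canonical form are `≥ δ`. -/
def Pur (δ : I) (g : G) : Prop := ∀ a ∈ E idx g, δ ≤ a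

theorem Pur.rho_ge {δ : I} {g : G} (h : Pur idx δ g) (h1 : g ≠ 1) : δ ≤ rho idx g :=
  h _ (rho_mem_E idx h1)

theorem Pur.mono {δ δ' : I} {g : G} (h : Pur idx δ' g) (hδ : δ ≤ δ') : Pur idx δ g :=
  fun a ha => le_trans hδ (h a ha)

open Classical in
theorem concat {δ : I} {x : G} (hx : x ∈ Gs idx δ) : ∀ v : G, Pur idx δ v →
    E idx (x * v) = E idx x ∪ E idx v := by
  intro v
  induction v using headInd idx with
  | hone =>
    intro _
    simp [E_one]
  | hstep v h1 ih =>
    intro hv
    have hr : δ ≤ rho idx v := hv.rho_ge idx h1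
    have hx' : x ∈ Gs idx (rho idx v) := Gs_mono idx hr hx
    have hne := mul_ne_one' idx hx' h1
    rw [E_ne idx hne, rho_mul idx hx' h1, head_mul idx hx' h1, ih, E_ne idx h1,
      Finset.union_insert]
    intro a ha
    apply hv
    rw [E_ne idx h1]
    exact Finset.mem_insert_of_mem ha

theorem split (δ : I) : ∀ g : G, ∃ x ∈ Gs idx δ, ∃ v, Pur idx δ v ∧ g = x * v := by
  classical
  intro g
  induction g using headInd idx with
  | hone =>
    refine ⟨1, one_mem _, 1, ?_, by simp⟩
    intro a ha
    rw [E_one] at ha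
    simp at ha
  | hstep g h1 ih =>
    by_cases hr : rho idx g < δ
    · refine ⟨g, mem_Gs_of_lt idx hr, 1, ?_, by simp⟩
      intro a ha
      rw [E_one] at ha
      simp at ha
    · have hr : δ ≤ rho idx g := not_lt.1 hr
      obtain ⟨x, hx, v', hv', he⟩ := ih
      have hx' : x ∈ Gs idx (rho idx g) := Gs_mono idx hr hx
      refine ⟨x, hx, x⁻¹ * g, ?_, by simp⟩
      have hxi := inv_mem hx'
      have hne := mul_ne_one' idx hxi h1
      intro a ha
      rw [E_ne idx hne, rho_mul idx hxi h1, head_mul idx hxi h1, he] at ha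
      rcases Finset.mem_insert.1 ha with rfl | ha
      · exact hr
      · apply hv' a
        simpa using ha

end Pool.Agent.Helper495.Res
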