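import Pool.Agent.Helper495.Res.Comb

set_option autoImplicit false

namespace Pool.Agent.Helper495.Res

open Cardinal Set

universe u

section NoMono

variable {I M : Type u} [LinearOrder I] [LinearOrder M] {κ : Cardinal.{u}}

theorem box_card (hκ : κ.IsRegular) (hM : #M < κ) (hM2 : ∀ ν : M, (2 : Cardinal.{u}) ^ #(Iic ν) < κ) :
    #(Σ ν : M, (Iic ν → Bool)) < κ := by
  rw [mk_sigma]
  refine sum_lt_of_isRegular hκ hM (fun ν => ?_)
  have : #(Iic ν → Bool) = (2 : Cardinal.{u}) ^ #(Iic ν) := by simp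
  rw [this]
  exact hM2 ν

theorem nomono [WellFoundedLT M] (hκ : κ.IsRegular) (hI : ∀ r : I, #(Iio r) < κ) (hcard : κ ≤ #I)
    (hM : #M < κ) (hM2 : ∀ ν : M, (2 : Cardinal.{u}) ^ #(Iic ν) < κ)
    (e : I → M → Bool) (he : Function.Injective e) {V : Type u} (P : I → V → Prop)
    (hanti : ∀ δ δ' v, δ ≤ δ' → P δ' v → P δ v) (hP : ∀ δ, ∃ v, P δ v)
    (r b : V → I) (s : Prop)
    (hs : ∀ v v' δ, P δ v → P (b v) v' → (ltE (e (r v)) (e (r v')) ↔ s))
    (hne : ∀ v v', P (b v) v' → r v ≠ r v') : False := by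
  choose p hp using fun v => hP (b v)
  have hfirst : ∀ v, ∃ ν, (∀ ν' < ν, e (r v) ν' = e (r (p v)) ν') ∧ e (r v) ν ≠ e (r (p v)) ν :=
    fun v => exists_first (fun h => hne v (p v) (hp v) (he h))
  choose n hn1 hn2 using hfirst
  obtain ⟨d, hd⟩ := pigeon hκ hI hcard (box_card hκ hM hM2) P hanti hP
    (fun v => (⟨n v, fun i => e (r v) i⟩ : Σ ν : M, (Iic ν → Bool)))
  have hI0 : Nonempty I := by
    rw [← mk_ne_zero_iff]
    intro h0
    rw [h0] at hcard
    have := lt_of_lt_of_le aleph0_pos (hκ.aleph0_le.trans hcard)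
    exact absurd this (lt_irrefl _)
  obtain ⟨δ0⟩ := hI0
  obtain ⟨v1, hv1, hd1⟩ := hd δ0
  have hv2 := hp v1
  obtain ⟨v3, hv3, hd3⟩ := hd (b (p v1))
  have h12 := hs v1 (p v1) δ0 hv1 hv2
  have h23 := hs (p v1) v3 (b v1) hv2 hv3
  have hdd := hd3.trans hd1.symm
  have hν : n v3 = n v1 := congrArg Sigma.fst hdd
  have hag : ∀ i ≤ n v1, e (r v3) i = e (r v1) i := by
    intro i hi
    have key : ∀ (x y : Σ ν : M, (Iic ν → Bool)), x = y → ∀ (i : M) (hx : i ≤ x.1) (hy : i ≤ y.1),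
        x.2 ⟨i, hx⟩ = y.2 ⟨i, hy⟩ := by
      rintro x y rfl i hx hy
      rfl
    exact key _ _ hdd i (by rw [← hν] at hi; exact hi) hi
  rw [ltE_iff_of_first (hn1 v1) (hn2 v1)] at h12
  rw [ltE_iff_of_first (a := e (r (p v1))) (b := e (r v3)) (ν := n v1)
    (fun ν' hν' => by rw [hag _ hν'.le, hn1 v1 _ hν'])
    (by rw [hag _ le_rfl]; exact (hn2 v1).symm)] at h23
  have h3 := h12.trans h23.symm
  have h4 := hn2 v1
  cases h5 : e (r v1) (n v1) <;> cases h6 : e (r (p v1)) (n v1) <;> simp_all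

end NoMono

section Colour

variable {G I M : Type u} [Group G] [LinearOrder I] [WellFoundedLT I] [LinearOrder M]
  (idx : G → I) (e : I → M → Bool)

open Classical in
/-- Number of elements lexicographically below a threshold. -/
noncomputable def cnt (F : Finset I) (t : I) : ℕ := (F.filter (fun a => ltE (e a) (e t))).card

/-- The counting function. -/
noncomputable def NN (g : G) : ℕ := cnt e (E idx g) (rho idx g)

theorem NN_mul {y v : G} {δ : I} (hy : y ∈ Gs idx δ) (hv : Pur idx δ v) (h1 : v ≠ 1) :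
    NN idx e (y * v) = cnt e (E idx y) (rho idx v) + NN idx e v := by
  classical
  unfold NN cnt
  have hy' : y ∈ Gs idx (rho idx v) := Gs_mono idx (hv.rho_ge idx h1) hy
  rw [concat idx hy v hv, rho_mul idx hy' h1, Finset.filter_union, Finset.card_union_of_disjoint]
  rw [Finset.disjoint_left]
  intro a ha1 ha2
  have h2 := E_lt idx y δ hy a (Finset.mem_filter.1 ha1).1
  have h3 := hv a (Finset.mem_filter.1 ha2).1
  exact absurd h2 (not_lt.2 h3)

omit [WellFoundedLT I] in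
open Classical in
theorem cnt_insert {F : Finset I} {r t : I} (hr : r ∉ F) :
    cnt e (insert r F) t = (if ltE (e r) (e t) then 1 else 0) + cnt e F t := by
  unfold cnt
  rw [Finset.filter_insert]
  split_ifs with h
  · rw [Finset.card_insert_of_notMem, add_comm]
    intro hc
    exact hr (Finset.mem_filter.1 hc).1
  · rw [zero_add]

theorem comb [WellFoundedLT M] {κ : Cardinal.{u}}
    (hκ : κ.IsRegular) (hκ1 : ℵ₀ < κ) (hI : ∀ r : I, #(Iio r) < κ) (hcard : κ ≤ #I)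
    (hM : #M < κ) (hM2 : ∀ ν : M, (2 : Cardinal.{u}) ^ #(Iic ν) < κ) (hM0 : Nonempty M)
    (he : Function.Injective e) (hinj : Function.Injective idx) (x0 : G) (W : Set G)
    (hW : κ ≤ #W) (s : Prop) :
    ∃ w ∈ W, ∃ w' ∈ W, ¬ (Even (NN idx e (x0 * w⁻¹ * w')) ↔ s) := by
  classical
  by_contra hcon
  push Not at hcon
  obtain ⟨h, hh⟩ := step1 hκ hκ1 hI hcard idx hinj W hW
  -- the base family
  let P0 : I → G → Prop := fun δ v => v ≠ 1 ∧ Pur idx δ v ∧ h * v ∈ W ∧ x0 ∈ Gs idx (rho idx v)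
  have hanti0 : ∀ δ δ' v, δ ≤ δ' → P0 δ' v → P0 δ v := by
    rintro δ δ' v hδ ⟨h1, h2, h3, h4⟩
    exact ⟨h1, h2.mono idx hδ, h3, h4⟩
  have hP0 : ∀ δ, ∃ v, P0 δ v := by
    intro δ
    obtain ⟨b, hb⟩ := bounded_set hκ hI hcard {δ, rho idx x0} (by
      refine lt_of_le_of_lt ?_ hκ1
      exact (Set.Finite.lt_aleph0 (Set.toFinite _)).le)
    obtain ⟨v, hv1, hv2, hv3⟩ := hh b
    refine ⟨v, hv1, hv2.mono idx (hb δ (by simp)).le, hv3, ?_⟩
    exact Gs_mono idx (hv2.rho_ge idx hv1) (mem_Gs_of_lt idx (hb (rho idx x0) (by simp)))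
  let Hs : G → Finset I := fun v => E idx (head idx (x0 * v⁻¹))
  -- facts on y = x0 * v⁻¹
  have hvinv : ∀ v : G, v ≠ 1 → v⁻¹ ≠ 1 := fun v hv h0 => hv (inv_eq_one.1 h0)
  have hy1 : ∀ δ v, P0 δ v → x0 * v⁻¹ ≠ 1 := by
    rintro δ v ⟨h1, h2, h3, h4⟩
    exact mul_ne_one' idx (by rw [rho_inv]; exact h4) (hvinv v h1)
  have hy2 : ∀ δ v, P0 δ v → rho idx (x0 * v⁻¹) = rho idx v := by
    rintro δ v ⟨h1, h2, h3, h4⟩
    rw [rho_mul idx (by rw [rho_inv]; exact h4) (hvinv v h1), rho_inv]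
  have hy3 : ∀ δ v, P0 δ v → E idx (x0 * v⁻¹) = insert (rho idx v) (Hs v) := by
    intro δ v hv
    rw [E_ne idx (hy1 δ v hv), hy2 δ v hv]
  have hy4 : ∀ δ v, P0 δ v → ∀ a ∈ Hs v, a < rho idx v := by
    intro δ v hv a ha
    have := E_head_lt idx ha
    rw [hy2 δ v hv] at this
    exact this
  -- separating position
  have hsep : ∀ v, ∃ ν : M, (∃ δ, P0 δ v) → ∀ a ∈ Hs v, ∃ ν0 ≤ ν, e a ν0 ≠ e (rho idx v) ν0 := by
    intro v
    by_cases hv : ∃ δ, P0 δ v
    · obtain ⟨δ, hv⟩ := hv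
      have h1 : ∀ a ∈ Hs v, ∃ ν0, e a ν0 ≠ e (rho idx v) ν0 := by
        intro a ha
        by_contra hc
        push Not at hc
        exact (hy4 δ v hv a ha).ne (he (funext hc))
      obtain ⟨m0⟩ := hM0
      have h2 : ∃ ν : M, ∀ a ∈ Hs v, ∃ ν0 ≤ ν, e a ν0 ≠ e (rho idx v) ν0 := by
        revert h1
        generalize Hs v = F
        intro h1
        induction F using Finset.induction_on with
        | empty => exact ⟨m0, by simp⟩
        | insert a F _ ih =>
          obtain ⟨ν, hν⟩ := ih (fun a ha => h1 a (Finset.mem_insert_of_mem ha))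
          obtain ⟨ν1, hν1⟩ := h1 a (Finset.mem_insert_self _ _)
          refine ⟨max ν ν1, ?_⟩
          intro c hc
          rcases Finset.mem_insert.1 hc with rfl | hc
          · exact ⟨ν1, le_max_right _ _, hν1⟩
          · obtain ⟨ν0, h3, h4⟩ := hν c hc
            exact ⟨ν0, h3.trans (le_max_left _ _), h4⟩
      obtain ⟨ν, hν⟩ := h2
      exact ⟨ν, fun _ => hν⟩
    · obtain ⟨m0⟩ := hM0
      exact ⟨m0, fun h => absurd h hv⟩
  choose n hn using hsep
  -- colour classes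
  have hJ : #((Bool × Bool) × (Σ ν : M, (Iic ν → Bool))) < κ := by
    rw [mk_prod]
    refine mul_lt_of_lt hκ.aleph0_le ?_ ?_
    · refine lt_of_le_of_lt ?_ hκ1
      rw [lift_le_aleph0]
      exact mk_le_aleph0
    · rw [lift_id']
      exact box_card hκ hM hM2
  obtain ⟨d, hd⟩ := pigeon hκ hI hcard hJ P0 hanti0 hP0
    (fun v => ((decide (Even (NN idx e v)), decide (Even (cnt e (Hs v) (rho idx v)))),
      (⟨n v, fun i => e (rho idx v) i⟩ : Σ ν : M, (Iic ν → Bool))))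
  have hb : ∀ v, ∃ b, rho idx v < b ∧ rho idx (x0 * v⁻¹) < b := by
    intro v
    obtain ⟨b, hb⟩ := bounded_set hκ hI hcard {rho idx v, rho idx (x0 * v⁻¹)} (by
      refine lt_of_le_of_lt ?_ hκ1
      exact (Set.Finite.lt_aleph0 (Set.toFinite _)).le)
    exact ⟨b, hb _ (by simp), hb _ (by simp)⟩
  choose b hb1 hb2 using hb
  refine nomono hκ hI hcard hM hM2 e he
    (fun δ v => P0 δ v ∧ ((decide (Even (NN idx e v)), decide (Even (cnt e (Hs v) (rho idx v)))),
      (⟨n v, fun i => e (rho idx v) i⟩ : Σ ν : M, (Iic ν → Bool))) = d)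
    (fun δ δ' v hδ hv => ⟨hanti0 δ δ' v hδ hv.1, hv.2⟩) hd (fun v => rho idx v) b
    (¬ ((d.1.2 = true ↔ d.1.1 = true) ↔ s)) ?_ ?_
  · rintro v v' δ ⟨hv, hvd⟩ ⟨hv', hvd'⟩
    have hy : x0 * v⁻¹ ∈ Gs idx (b v) := mem_Gs_of_lt idx (hb2 v)
    have hN := NN_mul idx e hy hv'.2.1 hv'.1
    rw [hy3 δ v hv, cnt_insert e (fun hmem => lt_irrefl _ (hy4 δ v hv _ hmem))] at hN
    have hcnt : cnt e (Hs v) (rho idx v') = cnt e (Hs v) (rho idx v) := by
      unfold cnt
      congr 1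
      apply Finset.filter_congr
      intro a ha
      obtain ⟨ν0, h1, h2⟩ := hn v ⟨δ, hv⟩ a ha
      refine (ltE_congr (ν := n v) ?_ h1 h2).symm
      have hbox := congrArg Prod.snd (hvd.trans hvd'.symm)
      have key : ∀ (x y : Σ ν : M, (Iic ν → Bool)), x = y → ∀ (i : M) (hx : i ≤ x.1) (hy : i ≤ y.1),
          x.2 ⟨i, hx⟩ = y.2 ⟨i, hy⟩ := by
        rintro x y rfl i hx hy
        rfl
      intro i hi
      have hν : n v = n v' := congrArg Sigma.fst hbox
      exact key _ _ hbox i hi (by rw [hν] at hi; exact hi)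
    rw [hcnt] at hN
    have hE := hcon (h * v) hv.2.2.1 (h * v') hv'.2.2.1
    have hgrp : x0 * (h * v)⁻¹ * (h * v') = x0 * v⁻¹ * v' := by group
    rw [hgrp, hN] at hE
    have hd1 : (d.1.1 = true) ↔ Even (NN idx e v') := by
      rw [← hvd']; simp
    have hd2 : (d.1.2 = true) ↔ Even (cnt e (Hs v) (rho idx v)) := by
      rw [← hvd]; simp
    rw [hd1, hd2]
    have hp : Even (cnt e (Hs v) (rho idx v) + NN idx e v') ↔
        (Even (cnt e (Hs v) (rho idx v)) ↔ Even (NN idx e v')) := Nat.even_add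
    split_ifs at hE with hlt
    · simp only [hlt, true_iff]
      rw [add_assoc, add_comm 1, Nat.even_add_one, hp] at hE
      tauto
    · simp only [hlt, false_iff, not_not]
      rw [zero_add, hp] at hE
      exact hE
  · rintro v v' ⟨hv', _⟩ heq
    have h1 := hv'.2.1.rho_ge idx hv'.1
    have h2 := hb1 v
    rw [show rho idx v = rho idx v' from heq] at h2
    exact absurd h2 (not_lt.2 h1)

end Colour

end Pool.Agent.Helper495.Res
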