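import Pool.Agent.Helper495.Res.Canon

set_option autoImplicit false

namespace Pool.Agent.Helper495.Res

open Cardinal Set

universe u

section Bounds

variable {I : Type u} [LinearOrder I] {κ : Cardinal.{u}}

theorem mk_Iic_lt (hκ : ℵ₀ ≤ κ) (hI : ∀ r : I, #(Iio r) < κ) (r : I) : #(Iic r) < κ := by
  have h : Iic r = insert r (Iio r) := by
    ext x
    simp [le_iff_eq_or_lt]
  rw [h]
  exact lt_of_le_of_lt mk_insert_le (add_lt_of_lt hκ (hI r) (lt_of_lt_of_le one_lt_aleph0 hκ))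

theorem bounded_set (hκ : κ.IsRegular) (hI : ∀ r : I, #(Iio r) < κ) (hcard : κ ≤ #I)
    (S : Set I) (hS : #S < κ) : ∃ b, ∀ s ∈ S, s < b := by
  by_contra hcon
  push Not at hcon
  have hcov : (univ : Set I) ⊆ ⋃ s : S, Iic (s : I) := by
    intro b _
    obtain ⟨s, hs, hb⟩ := hcon b
    exact mem_iUnion.2 ⟨⟨s, hs⟩, hb⟩
  have h1 : #I ≤ Cardinal.sum (fun s : S => #(Iic (s : I))) := by
    calc #I = #(univ : Set I) := mk_univ.symm
      _ ≤ #(⋃ s : S, Iic (s : I) : Set I) := mk_le_mk_of_subset hcov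
      _ ≤ _ := mk_iUnion_le_sum_mk
  have h2 : Cardinal.sum (fun s : S => #(Iic (s : I))) < κ :=
    sum_lt_of_isRegular hκ hS (fun s => mk_Iic_lt hκ.aleph0_le hI s)
  exact absurd (lt_of_le_of_lt h1 h2) (not_lt.2 hcard)

theorem bounded_fam (hκ : κ.IsRegular) (hI : ∀ r : I, #(Iio r) < κ) (hcard : κ ≤ #I)
    {J : Type u} (hJ : #J < κ) (f : J → I) : ∃ b, ∀ j, f j < b := by
  obtain ⟨b, hb⟩ := bounded_set hκ hI hcard (range f) (lt_of_le_of_lt mk_range_le hJ)
  exact ⟨b, fun j => hb _ ⟨j, rfl⟩⟩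

theorem pigeon (hκ : κ.IsRegular) (hI : ∀ r : I, #(Iio r) < κ) (hcard : κ ≤ #I)
    {V J : Type u} (hJ : #J < κ) (P : I → V → Prop)
    (hanti : ∀ δ δ' v, δ ≤ δ' → P δ' v → P δ v) (hP : ∀ δ, ∃ v, P δ v) (D : V → J) :
    ∃ d, ∀ δ, ∃ v, P δ v ∧ D v = d := by
  by_contra hcon
  push Not at hcon
  choose f hf using hcon
  obtain ⟨b, hb⟩ := bounded_fam hκ hI hcard hJ f
  obtain ⟨v, hv⟩ := hP b
  exact hf (D v) v (hanti _ _ _ (hb _).le hv) rfl

end Bounds

section Closing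

variable {G I : Type u} [Group G] [LinearOrder I] [WellFoundedLT I] {κ : Cardinal.{u}}

theorem mk_closure_le (S : Set G) : #(Subgroup.closure S) ≤ max ℵ₀ #S := by
  rw [FreeGroup.closure_eq_range]
  have h1 : #((FreeGroup.lift ((↑) : S → G)).range) ≤ #(FreeGroup S) :=
    mk_le_of_surjective (FreeGroup.lift ((↑) : S → G)).rangeRestrict_surjective
  have h2 : #(FreeGroup S) ≤ #(List (S × Bool)) :=
    mk_le_of_surjective (f := fun L => FreeGroup.mk L) (Quot.mk_surjective)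
  have h3 : #(List (S × Bool)) ≤ max ℵ₀ #(S × Bool) := mk_list_le_max _
  have h4 : #(S × Bool) ≤ max ℵ₀ #S := by
    rw [mk_prod]
    simp only [lift_uzero, mk_fintype, Fintype.card_bool, Nat.cast_ofNat, lift_ofNat]
    refine le_trans (mul_le_max _ _) ?_
    refine max_le (max_le (le_max_right _ _) ?_) (le_max_left _ _)
    exact le_trans (natCast_lt_aleph0 (n := 2)).le (le_max_left _ _)
  exact h1.trans (h2.trans (h3.trans (max_le (le_max_left _ _) h4)))

theorem mk_Gs_lt (hκ1 : ℵ₀ < κ) (hI : ∀ r : I, #(Iio r) < κ) (idx : G → I)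
    (hinj : Function.Injective idx) (r : I) : #(Gs idx r) < κ := by
  refine lt_of_le_of_lt (mk_closure_le _) (max_lt hκ1 ?_)
  refine lt_of_le_of_lt ?_ (hI r)
  exact mk_le_of_injective (f := fun x : {x | idx x < r} => (⟨idx x, x.2⟩ : Iio r))
    (fun x y h => Subtype.ext (hinj (congrArg Subtype.val h)))

theorem closing (hκ : κ.IsRegular) (hκ1 : ℵ₀ < κ) (hI : ∀ r : I, #(Iio r) < κ)
    (hcard : κ ≤ #I) (idx : G → I) (hinj : Function.Injective idx) (f : G → I) :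
    ∃ δ, ∀ h ∈ Gs idx δ, f h ≤ δ := by
  have hstep : ∀ δ : I, ∃ δ', δ < δ' ∧ ∀ h ∈ Gs idx δ, f h < δ' := by
    intro δ
    obtain ⟨b, hb⟩ := bounded_set hκ hI hcard (insert δ (f '' (Gs idx δ : Set G))) (by
      refine lt_of_le_of_lt mk_insert_le (add_lt_of_lt hκ.aleph0_le ?_
        (lt_of_lt_of_le one_lt_aleph0 hκ.aleph0_le))
      exact lt_of_le_of_lt mk_image_le (mk_Gs_lt hκ1 hI idx hinj δ))
    exact ⟨b, hb _ (mem_insert _ _), fun h hh => hb _ (mem_insert_of_mem _ ⟨h, hh, rfl⟩)⟩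
  choose g hg1 hg2 using hstep
  have hne : Nonempty I := by
    rw [← mk_ne_zero_iff]
    intro h0
    rw [h0] at hcard
    have := lt_of_lt_of_le hκ1 hcard
    exact absurd this not_lt_zero
  obtain ⟨δ0⟩ := hne
  let d : ℕ → I := fun n => g^[n] δ0
  have hd : ∀ n, d (n+1) = g (d n) := fun n => Function.iterate_succ_apply' g n δ0
  obtain ⟨b, hb⟩ := bounded_set hκ hI hcard (range d)
    (lt_of_le_of_lt (countable_range d).le_aleph0 hκ1)
  let S : Set I := {b | ∀ n, d n < b}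
  have hS : S.Nonempty := ⟨b, fun n => hb _ ⟨n, rfl⟩⟩
  let δ := (wellFounded_lt (α := I)).min S hS
  have hδ : ∀ n, d n < δ := (wellFounded_lt (α := I)).min_mem S hS
  refine ⟨δ, ?_⟩
  intro h hh
  rcases exists_of_mem_Gs idx hh with rfl | ⟨r', hr', hh'⟩
  · have h1 : f 1 < d 1 := by
      rw [hd 0]; exact hg2 _ _ (one_mem _)
    exact (h1.trans (hδ 1)).le
  · have hr : r' ∉ S := fun hr => (wellFounded_lt (α := I)).not_lt_min S hr hr'
    have : ∃ n, r' ≤ d n := by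
      by_contra hcon
      push Not at hcon
      exact hr hcon
    obtain ⟨n, hn⟩ := this
    have h2 : h ∈ Gs idx (d (n+1)) := by
      apply Gc_le_Gs idx _ hh'
      rw [hd n]
      exact lt_of_le_of_lt hn (hg1 _)
    have h3 : f h < d (n+2) := by
      rw [hd (n+1)]
      exact hg2 _ _ h2
    exact (h3.trans (hδ _)).le

theorem step1 (hκ : κ.IsRegular) (hκ1 : ℵ₀ < κ) (hI : ∀ r : I, #(Iio r) < κ)
    (hcard : κ ≤ #I) (idx : G → I) (hinj : Function.Injective idx)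
    (W : Set G) (hW : κ ≤ #W) : ∃ h : G, ∀ δ, ∃ v, v ≠ 1 ∧ Pur idx δ v ∧ h * v ∈ W := by
  by_contra hcon
  push Not at hcon
  choose f hf using hcon
  obtain ⟨δ, hδ⟩ := closing hκ hκ1 hI hcard idx hinj f
  have hsub : W ⊆ (Gs idx δ : Set G) := by
    intro w hw
    obtain ⟨x, hx, v, hv, rfl⟩ := split idx δ w
    by_cases h1 : v = 1
    · subst h1; simpa using hx
    · exact absurd hw (hf x v h1 (hv.mono idx (hδ x hx)))
  exact absurd (hW.trans (mk_le_mk_of_subset hsub)) (not_le.2 (mk_Gs_lt hκ1 hI idx hinj δ))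

end Closing

section Lex

variable {M : Type u} [LinearOrder M]

/-- Strict lexicographic order. -/
def ltE (a b : M → Bool) : Prop := ∃ ν, (∀ ν' < ν, a ν' = b ν') ∧ a ν = false ∧ b ν = true

theorem ltE_irrefl (a : M → Bool) : ¬ ltE a a := by
  rintro ⟨ν, _, h1, h2⟩
  rw [h1] at h2
  exact absurd h2 (by decide)

theorem ltE_congr {a c c' : M → Bool} {ν ν0 : M} (h : ∀ ν' ≤ ν, c ν' = c' ν')
    (h0 : ν0 ≤ ν) (hne : a ν0 ≠ c ν0) : ltE a c ↔ ltE a c' := by
  constructor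
  · rintro ⟨ν1, h1, h2, h3⟩
    have h4 : ν1 ≤ ν0 := by
      by_contra hcon
      exact hne (h1 _ (not_le.1 hcon))
    refine ⟨ν1, fun ν' hν' => ?_, h2, ?_⟩
    · rw [h1 _ hν', h _ (hν'.le.trans (h4.trans h0))]
    · rw [← h _ (h4.trans h0)]; exact h3
  · rintro ⟨ν1, h1, h2, h3⟩
    have h4 : ν1 ≤ ν0 := by
      by_contra hcon
      apply hne
      rw [h _ h0]
      exact (h1 _ (not_le.1 hcon))
    refine ⟨ν1, fun ν' hν' => ?_, h2, ?_⟩
    · rw [h1 _ hν', h _ (hν'.le.trans (h4.trans h0))]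
    · rw [h _ (h4.trans h0)]; exact h3

theorem ltE_iff_of_first {a b : M → Bool} {ν : M} (h : ∀ ν' < ν, a ν' = b ν')
    (hne : a ν ≠ b ν) : ltE a b ↔ a ν = false := by
  constructor
  · rintro ⟨ν1, h1, h2, h3⟩
    rcases lt_trichotomy ν1 ν with hlt | heq | hgt
    · have := h _ hlt
      rw [h2, h3] at this
      exact absurd this (by decide)
    · rw [← heq]; exact h2
    · exact absurd (h1 _ hgt) hne
  · intro h0
    refine ⟨ν, h, h0, ?_⟩
    cases hb : b ν with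
    | true => rfl
    | false => exact absurd (h0.trans hb.symm) hne

theorem exists_first [WellFoundedLT M] {a b : M → Bool} (hne : a ≠ b) :
    ∃ ν, (∀ ν' < ν, a ν' = b ν') ∧ a ν ≠ b ν := by
  have hS : {ν | a ν ≠ b ν}.Nonempty := by
    by_contra hcon
    apply hne
    ext ν
    by_contra h
    exact hcon ⟨ν, h⟩
  refine ⟨(wellFounded_lt (α := M)).min _ hS, ?_, (wellFounded_lt (α := M)).min_mem _ hS⟩
  intro ν' hν'
  by_contra h
  exact (wellFounded_lt (α := M)).not_lt_min _ (show ν' ∈ {ν | a ν ≠ b ν} from h) hν'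

end Lex

end Pool.Agent.Helper495.Res
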