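import Pool.Agent.Helper495.Res.Colour

set_option autoImplicit false

namespace Pool.Agent.Helper495.Res

open Cardinal Set Topology

universe u

/-- Purely algebraic colouring theorem. -/
theorem exists_colouring (G : Type u) [Group G] (κ μ : Cardinal.{u}) (hκ : κ.IsRegular)
    (hκ1 : ℵ₀ < κ) (hμ : μ < κ) (hκμ : κ ≤ 2 ^ μ) (hG : #G = κ) :
    ∃ A : Set G, ∀ (x0 : G) (W : Set G), κ ≤ #W → ∀ s : Prop,
      ∃ w ∈ W, ∃ w' ∈ W, ¬ (x0 * w⁻¹ * w' ∈ A ↔ s) := by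
  -- the minimal exponent
  have hne : {ν : Cardinal.{u} | κ ≤ 2 ^ ν}.Nonempty := ⟨μ, hκμ⟩
  obtain ⟨μ0, hμ0, hmin⟩ := Cardinal.lt_wf.has_min _ hne
  have hμ0κ : μ0 < κ := by
    refine lt_of_le_of_lt (not_lt.1 (hmin μ hκμ)) hμ
  have hμ0inf : ℵ₀ ≤ μ0 := by
    by_contra hcon
    push Not at hcon
    have h2 : (2 : Cardinal.{u}) ^ μ0 < ℵ₀ := power_lt_aleph0 (natCast_lt_aleph0 (n := 2)) hcon
    exact absurd (lt_of_le_of_lt hμ0 h2) (not_lt.2 hκ1.le)
  have hI : ∀ r : κ.ord.ToType, #(Iio r) < κ := by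
    intro r
    have := mk_Iio_lt r (by simp)
    simpa using this
  have hcard : κ ≤ #κ.ord.ToType := by simp
  have hMlt : ∀ r : μ0.ord.ToType, #(Iio r) < μ0 := by
    intro r
    have := mk_Iio_lt r (by simp)
    simpa using this
  have hM : #μ0.ord.ToType < κ := by simpa using hμ0κ
  have hM2 : ∀ ν : μ0.ord.ToType, (2 : Cardinal.{u}) ^ #(Iic ν) < κ := by
    intro ν
    have h1 := mk_Iic_lt hμ0inf hMlt ν
    by_contra hcon
    push Not at hcon
    exact hmin _ hcon h1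
  have hM0 : Nonempty μ0.ord.ToType := by
    rw [← mk_ne_zero_iff]
    simp only [mk_toType, card_ord]
    exact (lt_of_lt_of_le aleph0_pos hμ0inf).ne'
  -- the injections
  have hidx : ∃ idx : G → κ.ord.ToType, Function.Injective idx := by
    have h1 : #G ≤ #κ.ord.ToType := by rw [hG]; simp
    exact ⟨_, (Cardinal.le_def _ _ |>.1 h1).some.injective⟩
  obtain ⟨idx, hinj⟩ := hidx
  have he : ∃ e : κ.ord.ToType → (μ0.ord.ToType → Bool), Function.Injective e := by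
    have h1 : #κ.ord.ToType ≤ #(μ0.ord.ToType → Bool) := by
      simpa using hμ0
    exact ⟨_, (Cardinal.le_def _ _ |>.1 h1).some.injective⟩
  obtain ⟨e, he⟩ := he
  refine ⟨{g | Even (NN idx e g)}, ?_⟩
  intro x0 W hW s
  exact comb idx e hκ hκ1 hI hcard hM hM2 hM0 he hinj x0 W hW s

theorem dense_compl_of {G : Type u} [TopologicalSpace G] (A : Set G)
    (h : ∀ U : Set G, IsOpen U → U.Nonempty → ∀ s : Prop, ∃ g ∈ U, ¬ (g ∈ A ↔ s)) :
    Dense A ∧ Dense Aᶜ := by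
  constructor
  · rw [dense_iff_inter_open]
    intro U hU hne
    obtain ⟨g, hg, hs⟩ := h U hU hne False
    exact ⟨g, hg, by simpa using hs⟩
  · rw [dense_iff_inter_open]
    intro U hU hne
    obtain ⟨g, hg, hs⟩ := h U hU hne True
    exact ⟨g, hg, by simpa using hs⟩

/-- A topological group whose dispersion character is regular uncountable and not strong limit
is resolvable. -/
theorem resolvable_of_dispersion (G : Type u) [Group G] [TopologicalSpace G]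
    [IsTopologicalGroup G] (κ μ : Cardinal.{u}) (hκ : κ.IsRegular) (hκ1 : ℵ₀ < κ)
    (hμ : μ < κ) (hκμ : κ ≤ 2 ^ μ)
    (hlow : ∀ U : Set G, IsOpen U → U.Nonempty → κ ≤ #U)
    (hex : ∃ U : Set G, IsOpen U ∧ U.Nonempty ∧ #U ≤ κ) :
    ∃ A : Set G, Dense A ∧ Dense Aᶜ := by
  obtain ⟨U, hU, ⟨u, hu⟩, hUκ⟩ := hex
  let U1 : Set G := (fun x => u * x) ⁻¹' U
  have hU1 : IsOpen U1 := hU.preimage (continuous_const_mul u)
  have h1U1 : (1 : G) ∈ U1 := by simpa [U1] using hu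
  have hU1κ : #U1 ≤ κ := by
    refine le_trans ?_ hUκ
    exact mk_preimage_of_injective _ _ (mul_right_injective u)
  let H : Subgroup G := Subgroup.closure U1
  have hHopen : IsOpen (H : Set G) := by
    apply H.isOpen_of_mem_nhds (g := 1)
    exact Filter.mem_of_superset (hU1.mem_nhds h1U1) Subgroup.subset_closure
  have hHcard : #H = κ := by
    apply le_antisymm
    · exact (mk_closure_le U1).trans (max_le hκ1.le hU1κ)
    · exact hlow _ hHopen ⟨1, one_mem H⟩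
  obtain ⟨A, hA⟩ := exists_colouring H κ μ hκ hκ1 hμ hκμ hHcard
  have ht : ∀ g : G, ((g : G ⧸ H).out)⁻¹ * g ∈ H := by
    intro g
    rw [← QuotientGroup.eq]
    exact QuotientGroup.out_eq' _
  refine ⟨{g | (⟨((g : G ⧸ H).out)⁻¹ * g, ht g⟩ : H) ∈ A}, ?_⟩
  apply dense_compl_of
  intro U hU ⟨g0, hg0⟩ s
  -- small neighbourhood
  have hcont : Continuous (fun p : G × G => g0 * p.1⁻¹ * p.2) := by fun_prop
  have hmem : (fun p : G × G => g0 * p.1⁻¹ * p.2) ⁻¹' U ∈ 𝓝 ((1 : G), (1 : G)) := by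
    apply hcont.continuousAt.preimage_mem_nhds
    simpa using hU.mem_nhds hg0
  rw [nhds_prod_eq, Filter.mem_prod_iff] at hmem
  obtain ⟨V1, hV1, V2, hV2, hV⟩ := hmem
  obtain ⟨V, hVsub, hVo, h1V⟩ := mem_nhds_iff.1 (Filter.inter_mem hV1 hV2)
  let W : Set H := {w | (w : G) ∈ V}
  have hW : κ ≤ #W := by
    refine (hlow (V ∩ H) (hVo.inter hHopen) ⟨1, h1V, one_mem H⟩).trans ?_
    refine mk_le_of_injective (f := fun x : ↥(V ∩ (H : Set G)) => (⟨⟨x.1, x.2.2⟩, x.2.1⟩ : W)) ?_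
    intro x y hxy
    have := congrArg (fun z : W => ((z : H) : G)) hxy
    exact Subtype.ext this
  let x0 : H := ⟨((g0 : G ⧸ H).out)⁻¹ * g0, ht g0⟩
  obtain ⟨w, hw, w', hw', hs⟩ := hA x0 W hW s
  refine ⟨g0 * (w : G)⁻¹ * (w' : G), ?_, ?_⟩
  · exact hV (mk_mem_prod (hVsub hw).1 (hVsub hw').2)
  · have hq : ((g0 * (w : G)⁻¹ * (w' : G) : G) : G ⧸ H) = (g0 : G ⧸ H) := by
      rw [eq_comm, QuotientGroup.eq]
      have : g0⁻¹ * (g0 * (w : G)⁻¹ * (w' : G)) = ((w⁻¹ * w' : H) : G) := by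
        simp [mul_assoc]
      rw [this]
      exact (w⁻¹ * w').2
    have hx : (⟨((g0 * (w : G)⁻¹ * (w' : G) : G) : G ⧸ H).out⁻¹ * (g0 * (w : G)⁻¹ * (w' : G)),
        ht _⟩ : H) = x0 * w⁻¹ * w' := by
      apply Subtype.ext
      show ((g0 * (w : G)⁻¹ * (w' : G) : G) : G ⧸ H).out⁻¹ * (g0 * (w : G)⁻¹ * (w' : G)) =
        ((g0 : G ⧸ H).out)⁻¹ * g0 * (w : G)⁻¹ * (w' : G)
      rw [hq]
      simp only [mul_assoc]
    show ¬ ((⟨((g0 * (w : G)⁻¹ * (w' : G) : G) : G ⧸ H).out⁻¹ * (g0 * (w : G)⁻¹ * (w' : G)),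
        ht _⟩ : H) ∈ A ↔ s)
    rw [hx]
    exact hs

end Pool.Agent.Helper495.Res
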