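import Mathlib
import Pool.Agent.Helper495.Res.Final

set_option autoImplicit false

namespace Pool.Agent.Helper495.Res

open Cardinal Set Ordinal

universe u

/-- The dispersion character of a space: the least cardinality of a nonempty open set. -/
noncomputable def dispersion (G : Type u) [TopologicalSpace G] : Cardinal.{u} :=
  sInf {c | ∃ U : Set G, IsOpen U ∧ U.Nonempty ∧ #U = c}

theorem dispersion_mem (G : Type u) [Group G] [TopologicalSpace G] :
    ∃ U : Set G, IsOpen U ∧ U.Nonempty ∧ #U = dispersion G :=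
  csInf_mem (s := {c | ∃ U : Set G, IsOpen U ∧ U.Nonempty ∧ #U = c})
    ⟨#(univ : Set G), univ, isOpen_univ, ⟨1, mem_univ _⟩, rfl⟩

theorem dispersion_le {G : Type u} [TopologicalSpace G] {U : Set G}
    (hU : IsOpen U) (hne : U.Nonempty) : dispersion G ≤ #U :=
  csInf_le' ⟨U, hU, hne, rfl⟩

theorem part1 (G : Type u) [Group G] [TopologicalSpace G] [IsTopologicalGroup G]
    (h1 : (dispersion G).IsRegular) (h2 : ℵ₀ < dispersion G)
    (h3 : ∃ μ, μ < dispersion G ∧ dispersion G ≤ 2 ^ μ) : ∃ A : Set G, Dense A ∧ Dense Aᶜ := by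
  obtain ⟨μ, hμ, hμ2⟩ := h3
  refine resolvable_of_dispersion G (dispersion G) μ h1 h2 hμ hμ2
    (fun U hU hne => dispersion_le hU hne) ?_
  obtain ⟨U, hU, hne, hc⟩ := dispersion_mem G
  exact ⟨U, hU, hne, hc.le⟩

theorem part2 (G : Type u) [Group G] [TopologicalSpace G] [IsTopologicalGroup G]
    (h : ∃ c : Cardinal.{u}, ℵ₀ ≤ c ∧ dispersion G = Order.succ c) :
    ∃ A : Set G, Dense A ∧ Dense Aᶜ := by
  obtain ⟨c, hc, hG⟩ := h
  refine part1 G ?_ ?_ ⟨c, ?_, ?_⟩
  · rw [hG]; exact isRegular_succ hc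
  · rw [hG]; exact lt_of_le_of_lt hc (Order.lt_succ c)
  · rw [hG]; exact Order.lt_succ c
  · rw [hG]; exact Order.succ_le_of_lt (cantor c)

theorem part3 (G : Type u) [Group G] [TopologicalSpace G] [IsTopologicalGroup G]
    (hG : #G < ℵ_ ω) (hU : ∀ U : Set G, IsOpen U → U.Nonempty → ¬ U.Countable) :
    ∃ A : Set G, Dense A ∧ Dense Aᶜ := by
  apply part2
  obtain ⟨U, hUo, hne, hc⟩ := dispersion_mem G
  have h1 : ℵ₀ < dispersion G := by
    rw [← hc]
    by_contra hcon
    push Not at hcon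
    exact hU U hUo hne (le_aleph0_iff_set_countable.1 hcon)
  have h2 : dispersion G < ℵ_ ω := by
    refine lt_of_le_of_lt ?_ hG
    rw [← hc]
    exact mk_set_le U
  obtain ⟨o, ho⟩ := mem_range_aleph_iff.2 h1.le
  rw [← ho, aleph_lt_aleph] at h2
  obtain ⟨n, rfl⟩ := lt_omega0.1 h2
  rw [← ho] at h1 ⊢
  cases n with
  | zero => simp at h1
  | succ m =>
    refine ⟨ℵ_ m, aleph0_le_aleph _, ?_⟩
    rw [succ_aleph]
    simp

end Pool.Agent.Helper495.Res
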