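import Pool.Agent.Helper495.Res.Disp
import Pool.Agent.Helper495.Rb.Tame
import Pool.Agent.Helper495.Rb.Struct

set_option autoImplicit false

namespace Pool.Agent.Helper495.Res

open Cardinal Set Topology Ordinal H495R

universe u

theorem countable_nhds_of {G : Type u} [Group G] [TopologicalSpace G] [IsTopologicalGroup G]
    (h : ∃ U : Set G, IsOpen U ∧ U.Nonempty ∧ U.Countable) : ∃ U ∈ 𝓝 (1:G), U.Countable := by
  obtain ⟨U, hU, ⟨u, hu⟩, hUc⟩ := h
  refine ⟨(fun x => u * x) ⁻¹' U, ?_, hUc.preimage (mul_right_injective u)⟩
  have h1 : IsOpen ((fun x => u * x) ⁻¹' U) := hU.preimage (continuous_const_mul u)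
  exact h1.mem_nhds (by simpa using hu)

/-- In an irresolvable group whose dispersion character is countable or regular and not a strong
limit, the identity has a countable neighbourhood. -/
theorem countable_nhds_of_dispersion (G : Type u) [Group G] [TopologicalSpace G]
    [IsTopologicalGroup G]
    (h : dispersion G ≤ ℵ₀ ∨ (dispersion G).IsRegular ∧
      ∃ μ, μ < dispersion G ∧ dispersion G ≤ 2 ^ μ) (hG : NoRes G) :
    ∃ U ∈ 𝓝 (1:G), U.Countable := by
  by_cases h1 : dispersion G ≤ ℵ₀
  · apply countable_nhds_of
    obtain ⟨U, hU, hne, hc⟩ := dispersion_mem G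
    exact ⟨U, hU, hne, le_aleph0_iff_set_countable.1 (hc.le.trans h1)⟩
  · rcases h with h | ⟨h2, h3⟩
    · exact absurd h h1
    · exact absurd (part1 G h2 (not_le.1 h1) h3) hG

theorem good_of_small (G : Type u) [Group G] (h : #G < ℵ_ ω) : Good G := by
  intro _ _ hG
  by_cases hU : ∀ U : Set G, IsOpen U → U.Nonempty → ¬ U.Countable
  · exact absurd (part3 G h hU) hG
  · push Not at hU
    exact countable_nhds_of hU

/-- The smallest class of groups that contains all groups of cardinality less than `ℵ_ω` and all
subgroups of restricted direct products of countable groups and is closed under extensions and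
under passing from a subgroup of countable index to the whole group. -/
inductive TameW : (G : Type) → [Group G] → Prop
  | small (G : Type) [Group G] (h : #G < ℵ_ ω) : TameW G
  | restricted (G : Type) [Group G] (ι : Type) (D : ι → Type) [∀ i, Group (D i)]
      [∀ i, Countable (D i)] (φ : G →* (∀ i, D i)) (hφ : Function.Injective φ)
      (hfin : ∀ x, {i | φ x i ≠ 1}.Finite) : TameW G
  | extension (G : Type) [Group G] (N : Subgroup G) [N.Normal] (hN : TameW N)
      (hQ : TameW (G ⧸ N)) : TameW G
  | index (G : Type) [Group G] (H : Subgroup G) [Countable (G ⧸ H)] (hH : TameW H) : TameW G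

theorem good_of_tameW (G : Type) [i : Group G] (h : TameW G) : Good G := by
  induction h with
  | small G h => exact good_of_small G h
  | restricted G ι D φ hφ hfin => exact @good_of_restricted G _ ι D _ _ φ hφ hfin
  | extension G N hN hQ ihN ihQ => exact @good_of_extension G _ N _ ihN ihQ
  | index G H hH ih => exact @good_of_index G _ H _ ih

theorem tameW_of_tame (G : Type) [i : Group G] (h : Tame G) : TameW G := by
  induction h with
  | restricted G ι D φ hφ hfin => exact @TameW.restricted G _ ι D _ _ φ hφ hfin
  | extension G N hN hQ ihN ihQ => exact @TameW.extension G _ N _ ihN ihQ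
  | index G H hH ih => exact @TameW.index G _ H _ ih

theorem tameW_of_solvable (G : Type) [Group G] [Group.IsSolvable G] : TameW G :=
  tameW_of_tame G (tame_of_solvable G)

/-- resolvability from a countable neighbourhood and infinitely many ultrafilters -/
theorem res_of_nhds {G : Type u} [Group G] [TopologicalSpace G] [IsTopologicalGroup G]
    (hgood : NoRes G → ∃ U ∈ 𝓝 (1:G), U.Countable) (hinf : (UF (univ : Set G)).Infinite) :
    ∃ A : Set G, Dense A ∧ Dense Aᶜ := by
  by_contra h
  obtain ⟨U, hU, hUc⟩ := hgood h
  apply h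
  have := closure_countable hUc
  apply countable_subgroup (Subgroup.closure U)
  refine hinf.mono ?_
  rintro p ⟨h1, h2, -⟩
  exact ⟨h1, h2, Filter.mem_of_superset (h2 hU) Subgroup.subset_closure⟩

theorem boolean_of_nhds {G : Type u} [Group G] [TopologicalSpace G] [IsTopologicalGroup G]
    (hU : ∃ U ∈ 𝓝 (1:G), U.Countable) (hG : NoRes G) :
    ∃ K : Subgroup G, IsOpen (K : Set G) ∧ (K : Set G).Countable ∧ ∀ x ∈ K, x * x = 1 := by
  obtain ⟨U, hU, hUc⟩ := hU
  set H := Subgroup.closure U with hH
  have hHc : Countable H := closure_countable hUc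
  have hHo : IsOpen (H : Set G) :=
    Subgroup.isOpen_of_mem_nhds _ (g := 1) (Filter.mem_of_superset hU Subgroup.subset_closure)
  have hHres : NoRes H := fun h => hG (res_of_subgroup H h)
  obtain ⟨K, hK, hK2⟩ := open_boolean hHres
  refine ⟨K.map H.subtype, ?_, ?_, ?_⟩
  · have h1 : ((K.map H.subtype : Subgroup G) : Set G) = Subtype.val '' (K : Set H) := by
      simp
    rw [h1]
    exact hHo.isOpenMap_subtype_val _ hK
  · have h1 : ((K.map H.subtype : Subgroup G) : Set G) ⊆ (H : Set G) := by
      rintro _ ⟨k, _, rfl⟩
      exact k.2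
    exact (Set.countable_coe_iff.1 hHc).mono h1
  · rintro _ ⟨k, hk, rfl⟩
    have := hK2 k hk
    exact congrArg Subtype.val this

end Pool.Agent.Helper495.Res
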